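import Pool.Agent.Helper75.KM.Stmts

/-!
# KT: the Katz-Tao step for systems with the two-ends condition
-/

set_option autoImplicit false

namespace Pool.Agent.Helper75.KM

open Pool.Agent.Helper8.Kak Pool.Agent.Helper89.KakGeo

/-- the geometric data of the scale `(1/2)^N` -/
noncomputable def kt_G {m : ℕ} (N : ℕ) (L : Type) (x v : L → Fin m → ℝ)
    (hx : ∀ l i, |x l i| ≤ 1) (hd : Dirs N v) : Geo m (2 ^ N) where
  L := L
  x := x
  v := v
  δ := (1 / 2 : ℝ) ^ N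
  hδ := by positivity
  hδ1 := pow_le_one₀ (by norm_num) (by norm_num)
  hM := by
    push_cast
    rw [← mul_pow]
    norm_num
  hx := hx
  hv := hd.1
  hinj := hd.2

theorem kt_log (N : ℕ) : Real.log ((2 ^ N : ℕ) : ℝ) = N * Real.log 2 := by
  push_cast
  exact Real.log_pow 2 N

/-- the increment of the height on the line is at most the increment over `K` -/
theorem kt_sub {m M : ℕ} {G : Geo m M} (S : Sys G) : S.eB - S.eL ≤ S.eT - S.eK := by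
  have i := S.base.inc {.K} {.K, .T0} {.K, .l0} {.K, .l0, .T0} (by decide +kernel)
    (by decide +kernel)
  linarith [S.base.hK, S.base.hL0, S.base.h00, S.base.hT0]

/-- `h ≤ g` -/
theorem kt_hg {m N : ℕ} {L : Type} {x v : L → Fin m → ℝ} (hx : ∀ l i, |x l i| ≤ 1)
    (hd : Dirs N v) (S : Sys (kt_G N L x v hx hd)) :
    S.h ≤ gg S.p S.K S.l S.T (fun ω => ptn N x v (S.l ω) (S.T ω)) := by
  have h1 : gg S.p S.K S.l S.T (fun ω => ptn N x v (S.l ω) (S.T ω))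
      = S.eP - S.eK - (S.eB - S.eL) := rfl
  have h2 : S.h = S.eP - S.eT := rfl
  rw [h1, h2]
  linarith [kt_sub S]

/-- the inequality `MX` in the language of systems -/
theorem kt_mx {m : ℕ} {β ε C : ℝ} (hβ : 0 ≤ β)
    (h : ∀ (N : ℕ) (L : Type) (x v : L → Fin m → ℝ), Dirs N v →
    ∀ (Ω : Type) [Fintype Ω] (p : Ω → ℝ), IsProb p →
    ∀ (K : Setoid Ω) (l : Ω → L) (T : Ω → Fin (2 ^ N)),
      aa p K l ≤ β * gg p K l T (fun ω => ptn N x v (l ω) (T ω))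
        + m * (N * Real.log 2 - tt p K l T) + ε * N + C)
    {N : ℕ} {L : Type} {x v : L → Fin m → ℝ} (hx : ∀ l i, |x l i| ≤ 1) (hd : Dirs N v)
    (S : Sys (kt_G N L x v hx hd)) :
    S.a ≤ β * (S.h + S.κ) + m * S.κ + (ε * N + C) := by
  have h0 : S.a ≤ β * (S.eP - S.eK - (S.eB - S.eL)) + m * (N * Real.log 2 - (S.eB - S.eL))
      + ε * N + C := h N L x v hd S.Ω S.p S.hp S.K S.l S.T
  have h2 : S.h = S.eP - S.eT := rfl
  have h3 : S.κ = N * Real.log 2 - (S.eB - S.eL) := by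
    unfold Sys.κ
    rw [kt_log]
  have h6 := S.eTM
  rw [kt_log] at h6
  rw [← h3] at h0
  have h7 : S.eP - S.eK - (S.eB - S.eL) ≤ S.h + S.κ := by
    rw [h2, h3]
    linarith
  have h8 := mul_le_mul_of_nonneg_left h7 hβ
  linarith

/-- the linear algebra of the step -/
theorem kt_alg {a h κ om ze Lam sg aB hB κB aN hN κN U E β m : ℝ} (hβ1 : 1 < β)
    (hm : 0 ≤ m)
    (hc : β * (4 * β + 4) + (β - 1) * (4 * β + 6) + 3 * (β - 1) ^ 2 ≤ m * (β * (β - 1)))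
    (hκ : 0 ≤ κ)
    (w1 : 2 * a - h - om ≤ aB + 4 * κ + 3 * U)
    (w2 : hB ≤ Lam - om + 2 * κ + 4 * U)
    (w3 : κB ≤ 2 * κ + 2 * U)
    (fA : Lam ≤ 2 * h)
    (fC : a - h + Lam ≤ ze + sg + 3 * κ + 7 * U)
    (fs : sg ≤ h)
    (fD : 3 * a - 2 * h ≤ ze + aN + 6 * κ + 5 * U)
    (fE : hN ≤ h + om - ze + 2 * κ + 5 * U)
    (fF : κN ≤ 2 * κ + 3 * U)
    (iB : aB ≤ β * (hB + κB) + m * κB + E)
    (iN : aN ≤ β * (hN + κN) + m * κN + E) :
    (β ^ 2 + 3 * β - 2) * a ≤ (3 * β ^ 2 + 2 * β - 2) * h + m * (β ^ 2 + 3 * β - 2) * κ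
      + ((β - 1) * (8 * β + 3 * m + 5) + β * (6 * β + 2 * m + 3) + 7 * (β - 1) ^ 2) * U
      + (2 * β - 1) * E := by
  have hβ0 : 0 ≤ β := by linarith
  have e1 : hB + κB ≤ Lam - om + 4 * κ + 6 * U := by linarith
  have e2 := mul_le_mul_of_nonneg_left e1 hβ0
  have e3 := mul_le_mul_of_nonneg_left w3 hm
  have b1 : (β - 1) * om ≤ β * Lam - 2 * a + h + (4 * β + 2 * m + 4) * κ
      + (6 * β + 2 * m + 3) * U + E := by linarith
  have e4 : hN + κN ≤ h + om - ze + 4 * κ + 8 * U := by linarith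
  have e5 := mul_le_mul_of_nonneg_left e4 hβ0
  have e6 := mul_le_mul_of_nonneg_left fF hm
  have b2 : (β - 1) * ze ≤ β * (h + om) - 3 * a + 2 * h + (4 * β + 2 * m + 6) * κ
      + (8 * β + 3 * m + 5) * U + E := by linarith
  have b3 : a - 2 * h + Lam - 3 * κ - 7 * U ≤ ze := by linarith
  have c1 := mul_le_mul_of_nonneg_left b2 (by linarith : 0 ≤ β - 1)
  have c2 := mul_le_mul_of_nonneg_left b1 hβ0
  have c3 := mul_le_mul_of_nonneg_left b3 (by positivity : 0 ≤ (β - 1) ^ 2)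
  have c4 := mul_le_mul_of_nonneg_left fA (by linarith : 0 ≤ 2 * β - 1)
  have c5 := mul_le_mul_of_nonneg_right hc hκ
  linarith

theorem kt_step (hL : ST_LDP) (hC : ST_CST) {m : ℕ} {β : ℝ} (hβ1 : 1 < β)
    (hc : β * (4 * β + 4) + (β - 1) * (4 * β + 6) + 3 * (β - 1) ^ 2 ≤ m * (β * (β - 1)))
    {ε C D : ℝ} (hD : 0 ≤ D)
    (h : ∀ (N : ℕ) (L : Type) (x v : L → Fin m → ℝ), Dirs N v →
    ∀ (Ω : Type) [Fintype Ω] (p : Ω → ℝ), IsProb p →
    ∀ (K : Setoid Ω) (l : Ω → L) (T : Ω → Fin (2 ^ N)),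
      aa p K l ≤ β * gg p K l T (fun ω => ptn N x v (l ω) (T ω))
        + m * (N * Real.log 2 - tt p K l T) + ε * N + C)
    {N : ℕ} {L : Type} {x v : L → Fin m → ℝ} (hx : ∀ l i, |x l i| ≤ 1) (hd : Dirs N v)
    (S : Sys (kt_G N L x v hx hd)) (hS : Conc S.p S.K S.l S.T D) :
    (β ^ 2 + 3 * β - 2) * S.a ≤ (3 * β ^ 2 + 2 * β - 2) * S.h
      + m * (β ^ 2 + 3 * β - 2) * S.κ
      + ((β - 1) * (8 * β + 3 * m + 5) + β * (6 * β + 2 * m + 3) + 7 * (β - 1) ^ 2) * UU m D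
      + (2 * β - 1) * (ε * N + C) := by
  have H := hC m (2 ^ N) (kt_G N L x v hx hd) S D hD (hL m (2 ^ N) _ S D hS)
  have e : Real.log ((2 ^ N : ℕ) : ℝ) - (S.eB - S.eL) = S.κ := rfl
  have hβ0 : 0 ≤ β := by linarith
  have iB := kt_mx hβ0 h hx hd S.sysB
  have iN := kt_mx hβ0 h hx hd S.next
  have w1 := H.w1
  have w2 := H.w2
  have w3 := H.kw
  have fC := H.factC
  have fD := H.factD
  have fE := H.factE
  have fF := H.factF
  rw [e] at w1 w2 fC fD fE fF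
  have e' : S.eB - S.eL = Real.log ((2 ^ N : ℕ) : ℝ) - S.κ := by linarith
  rw [e'] at w3
  have fs := S.sg_le
  have fA := S.factA
  have g1 : 2 * S.a - S.h - S.om ≤ S.sysB.a + 4 * S.κ + 3 * UU m D := by
    rw [sysB_a]
    unfold Sys.a Sys.h Sys.om
    linarith
  have g2 : S.sysB.h ≤ S.Lam - S.om + 2 * S.κ + 4 * UU m D := by
    rw [sysB_h]
    unfold Sys.om
    linarith
  have g3 : S.sysB.κ ≤ 2 * S.κ + 2 * UU m D := by
    rw [sysB_κ]
    linarith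
  have g4 : S.a - S.h + S.Lam ≤ S.ze + S.sg + 3 * S.κ + 7 * UU m D := by
    unfold Sys.a Sys.h Sys.ze Sys.sg
    linarith
  have g5 : 3 * S.a - 2 * S.h ≤ S.ze + S.next.a + 6 * S.κ + 5 * UU m D := by
    rw [next_a]
    unfold Sys.a Sys.h Sys.ze
    linarith
  have g6 : S.next.h ≤ S.h + S.om - S.ze + 2 * S.κ + 5 * UU m D := by
    rw [next_h]
    unfold Sys.h Sys.ze Sys.om
    linarith
  have g7 : S.next.κ ≤ 2 * S.κ + 3 * UU m D := by
    rw [next_κ]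
    linarith
  exact kt_alg hβ1 (Nat.cast_nonneg m) hc S.κ_nonneg g1 g2 g3 fA g4 fs g5 g6 g7 iB iN

/-- KT: the Katz-Tao step -/
theorem st_KT (hL : ST_LDP) (hC : ST_CST) : ST_KT := by
  intro m β hβ1 _ hc hX ε D hε hD
  obtain ⟨C, h⟩ := hX ε hε
  have hd2 : 2 ≤ β ^ 2 + 3 * β - 2 := by nlinarith
  have hu : 0 ≤ (β - 1) * (8 * β + 3 * m + 5) + β * (6 * β + 2 * m + 3) + 7 * (β - 1) ^ 2 := by
    have h1 : 0 ≤ β - 1 := by linarith
    have h2 : 0 ≤ β := by linarith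
    positivity
  have hU : 0 ≤ UU m D := by
    unfold UU
    positivity
  have hW := mul_nonneg hu hU
  refine ⟨((β - 1) * (8 * β + 3 * m + 5) + β * (6 * β + 2 * m + 3) + 7 * (β - 1) ^ 2) * UU m D
    + |C|, fun N L x v hx hd Ω _ p hp K l T hS => ?_⟩
  have h0 := kt_step hL hC hβ1 hc hD h hx hd ⟨Ω, _, p, hp, K, l, T⟩ hS
  have h1 := kt_hg hx hd ⟨Ω, _, p, hp, K, l, T⟩
  have h2 : (Sys.κ (G := kt_G N L x v hx hd) ⟨Ω, _, p, hp, K, l, T⟩)
      = N * Real.log 2 - tt p K l T := by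
    rw [← kt_log]
    rfl
  rw [h2] at h0
  generalize hgh : Sys.h (G := kt_G N L x v hx hd) ⟨Ω, _, p, hp, K, l, T⟩ = hh at h0 h1
  have h3 : (Sys.a (G := kt_G N L x v hx hd) ⟨Ω, _, p, hp, K, l, T⟩) = aa p K l := rfl
  rw [h3] at h0
  have h1' : hh ≤ gg p K l T (fun ω => ptn N x v (l ω) (T ω)) := h1
  generalize gg p K l T (fun ω => ptn N x v (l ω) (T ω)) = g at h1' ⊢
  generalize aa p K l = a at h0 ⊢
  generalize (N : ℝ) * Real.log 2 - tt p K l T = κ at h0 ⊢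
  generalize ((β - 1) * (8 * β + 3 * m + 5) + β * (6 * β + 2 * m + 3) + 7 * (β - 1) ^ 2)
    * UU m D = W at h0 hW ⊢
  have hd0 : 0 < β ^ 2 + 3 * β - 2 := by linarith
  have hN : 0 ≤ ε * N := by positivity
  have hnum : 0 ≤ 3 * β ^ 2 + 2 * β - 2 := by nlinarith
  have k1 := mul_le_mul_of_nonneg_left h1' hnum
  have k2 : (2 * β - 1) * (ε * N + C) ≤ (β ^ 2 + 3 * β - 2) * (ε * N + |C|) := by
    have k3 : ε * N + C ≤ ε * N + |C| := by linarith [le_abs_self C]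
    have k4 : 0 ≤ ε * N + |C| := by positivity
    have k5 : 2 * β - 1 ≤ β ^ 2 + 3 * β - 2 := by nlinarith
    exact (mul_le_mul_of_nonneg_left k3 (by linarith)).trans (mul_le_mul_of_nonneg_right k5 k4)
  have k6 : 1 * W ≤ (β ^ 2 + 3 * β - 2) * W := mul_le_mul_of_nonneg_right (by linarith) hW
  have k7 : a ≤ ((3 * β ^ 2 + 2 * β - 2) * g + m * (β ^ 2 + 3 * β - 2) * κ
      + (β ^ 2 + 3 * β - 2) * W + (β ^ 2 + 3 * β - 2) * (ε * N + |C|)) / (β ^ 2 + 3 * β - 2) := by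
    rw [le_div_iff₀ hd0]
    linarith
  refine k7.trans (le_of_eq ?_)
  have hne : β ^ 2 + 3 * β - 2 ≠ 0 := hd0.ne'
  generalize β ^ 2 + 3 * β - 2 = d at hne ⊢
  field_simp
  ring

end Pool.Agent.Helper75.KM
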